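import Pool.Agent.Helper99.SI.StA

set_option autoImplicit false
set_option linter.unusedSectionVars false

/-! Project SI, module A6: the adjoint formula for the Fock product. -/

namespace Pool.Agent.Helper80.SI

open Pool.Agent.Helper99.SI

variable {n : ℕ} {L : Type} [Ring L] [Algebra ℂ L] [StarRing L] [StarModule ℂ L] [Nontrivial L]

theorem w_nil (D : Sys n L) : D.w [] = 1 := by
  simp [Sys.w, wd]

theorem gp_word (h2 : StA2) (D : Sys n L) (l : ℤ) (μ : W n) :
    D.g.p l (D.w μ) = if l = (μ.length : ℤ) then D.w μ else 0 := by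
  have h := h2 n L D l μ []
  rw [w_nil] at h
  simpa using h

theorem gp_ghost (h2 : StA2) (D : Sys n L) (l : ℤ) (μ : W n) :
    D.g.p l (star (D.w μ)) = if l = -(μ.length : ℤ) then star (D.w μ) else 0 := by
  have h := h2 n L D l [] μ
  rw [w_nil] at h
  simpa using h

theorem emb_single (D : Sys n L) (μ : W n) (a : ℂ) :
    D.emb (Finsupp.single μ a) = a • D.w μ := by
  simp [Sys.emb]

/-- the coefficient of 1 in star(w ν) w μ -/
theorem coef_one (h1 : StA1) (h2 : StA2) (h3 : StA3) (D : Sys n L) (μ ν : W n) :
    D.cf (D.g.p 0 (star (D.w ν) * D.w μ)) [] = if μ = ν then 1 else 0 := by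
  obtain ⟨_, hpre, hpre', hzero, _⟩ := h1 n L D
  have hcf : D.cf (1 : L) = Finsupp.single [] 1 := by
    have h := (h3 n L D).2.1 (Finsupp.single [] 1)
    rw [emb_single, w_nil, one_smul] at h
    exact h
  by_cases h : ν <+: μ
  · obtain ⟨κ, rfl⟩ := h
    rw [hpre, gp_word h2]
    by_cases hκ : κ = []
    · subst hκ
      rw [w_nil]
      simp [hcf]
    · rw [if_neg, if_neg]
      · simp
      · intro h
        exact hκ (List.append_right_eq_self.1 h)
      · intro h
        apply hκ
        rw [← List.length_eq_zero_iff]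
        exact_mod_cast h.symm
  · by_cases h' : μ <+: ν
    · obtain ⟨κ, rfl⟩ := h'
      rw [hpre', gp_ghost h2]
      have hκ : κ ≠ [] := by
        rintro rfl
        exact h (by simp)
      rw [if_neg, if_neg]
      · simp
      · intro h5
        exact hκ (List.append_right_eq_self.1 h5.symm)
      · intro h5
        apply hκ
        rw [← List.length_eq_zero_iff]
        omega
    · rw [hzero ν μ h h']
      rw [if_neg]
      · simp
      · rintro rfl
        exact h ⟨[], by simp⟩

theorem ip_single (μ : W n) (a : ℂ) (q : W n →₀ ℂ) :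
    Sys.ip (Finsupp.single μ a) q = a * star (q μ) := by
  unfold Sys.ip
  rw [Finsupp.sum_single_index]
  simp

theorem ip_add (p p' q : W n →₀ ℂ) : Sys.ip (p + p') q = Sys.ip p q + Sys.ip p' q := by
  unfold Sys.ip
  rw [Finsupp.sum_add_index']
  · intro i
    simp
  · intro i c c'
    ring

theorem ip_zero (q : W n →₀ ℂ) : Sys.ip 0 q = 0 := by
  unfold Sys.ip
  rw [Finsupp.sum_zero_index]

theorem ip_eq (h1 : StA1) (h2 : StA2) (h3 : StA3) (D : Sys n L) (u v : W n →₀ ℂ) :
    D.cf (D.g.p 0 (star (D.emb v) * D.emb u)) [] = Sys.ip u v := by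
  induction u using Finsupp.induction_linear with
  | zero => rw [ip_zero]; simp
  | add u u' hu hu' => rw [ip_add, ← hu, ← hu']; simp [mul_add]
  | single μ a =>
    rw [ip_single]
    induction v using Finsupp.induction_linear with
    | zero => simp
    | add v v' hv hv' =>
      rw [Finsupp.add_apply, star_add, mul_add, ← hv, ← hv']
      simp [add_mul]
    | single ν b =>
      rw [emb_single, emb_single, star_smul, smul_mul_smul_comm, map_smul, map_smul,
        Finsupp.smul_apply, coef_one h1 h2 h3, Finsupp.single_apply]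
      by_cases h : μ = ν
      · subst h
        simp [mul_comm]
      · rw [if_neg h, if_neg (fun h' => h h'.symm)]
        simp

theorem hA6 (h1 : StA1) (h2 : StA2) (h3 : StA3) : StA6 := by
  intro n L _ _ _ _ _ D y p q hy hy'
  obtain ⟨_, _, hemb, _⟩ := h3 n L D
  rw [← ip_eq h1 h2 h3 D, ← ip_eq h1 h2 h3 D, hemb _ hy, hemb _ hy', star_mul, star_star,
    mul_assoc]

end Pool.Agent.Helper80.SI
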