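import Pool.Agent.Helper80.SI.StN
import Pool.Agent.Helper99.SI.Defs4

set_option autoImplicit false
set_option linter.unusedSectionVars false

/-! Project SI: the condition C1 follows from the operator package. -/

namespace Pool.Agent.Helper80.SI

open Pool.Agent.Helper99.SI Filter Topology

theorem l2_norm_sq {ι : Type} (z : L2 ι) : ‖z‖ ^ 2 = ∑' i, ‖z i‖ ^ 2 := by
  have h := lp.norm_rpow_eq_tsum (p := 2) (by norm_num) z
  simpa [Real.rpow_two] using h

theorem l2_summable {ι : Type} (z : L2 ι) : Summable fun i => ‖z i‖ ^ 2 := by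
  have h := (lp.memℓp z).summable (by norm_num)
  simpa [Real.rpow_two] using h

/-- the element of L2 attached to a square summable function -/
noncomputable def mkL2 {ι : Type} (z : ι → ℂ) (h : Summable fun i => ‖z i‖ ^ 2) : L2 ι :=
  ⟨z, (memℓp_gen_iff (p := 2) (by norm_num)).2 (by simpa [Real.rpow_two] using h)⟩

theorem mkL2_apply {ι : Type} (z : ι → ℂ) (h : Summable fun i => ‖z i‖ ^ 2) (i : ι) :
    mkL2 z h i = z i := rfl

theorem c1_of_pack {n : ℕ} {L : Type} [Ring L] [Algebra ℂ L] [StarRing L] (D : Sys n L)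
    (m : MData n L) (J0 : Finset (Idx n m.r)) (P : OpPack D m J0) : C1 m := by
  classical
  obtain ⟨C, hC⟩ := P.off
  set C' : ℝ := max C 0 with hC'
  have hn1 : P.n1 ≠ 0 := by have := P.hn1; omega
  refine ⟨1 + C' ^ 2, 1 - (1 / 2) ^ P.n1, P.J, ?_, ?_⟩
  · have : ((1 : ℝ) / 2) ^ P.n1 < 1 := pow_lt_one₀ (by norm_num) (by norm_num) hn1
    linarith
  intro s t hs hs1 ht ht1 hst z hz hk
  have hpos : (0 : ℝ) < (1 / 2) ^ P.n1 := by positivity
  have hs0 : 0 ≤ s := by linarith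
  have ht0 : 0 < t := by linarith
  set u : ℝ := t ^ ((P.n1 : ℝ)⁻¹) with hu
  have hut : u ^ P.n1 = t := Real.rpow_inv_natCast_pow ht0.le hn1
  have hu0 : 0 < u := Real.rpow_pos_of_pos ht0 _
  have hu1 : u ≤ 1 := Real.rpow_le_one ht0.le ht1 (by positivity)
  have hu2 : 1 / 2 ≤ u := by
    by_contra h
    have h1 : u ^ P.n1 < (1 / 2) ^ P.n1 := pow_lt_pow_left₀ (not_le.1 h) hu0.le hn1
    rw [hut] at h1
    linarith
  -- the vectors
  have hz1 : Summable fun i => ‖(if i ∈ P.J then z i else 0 : ℂ)‖ ^ 2 := by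
    refine Summable.of_nonneg_of_le (fun _ => sq_nonneg _) (fun i => ?_) hz
    split_ifs
    · exact le_rfl
    · simp
  have hz2 : Summable fun i => ‖(if i ∈ P.J then 0 else z i : ℂ)‖ ^ 2 := by
    refine Summable.of_nonneg_of_le (fun _ => sq_nonneg _) (fun i => ?_) hz
    split_ifs
    · simp
    · exact le_rfl
  set zz := mkL2 z hz with hzz
  set z1 := mkL2 _ hz1 with hz1d
  set z2 := mkL2 _ hz2 with hz2d
  have hadd : zz = z1 + z2 := by
    ext i
    rw [lp.coeFn_add, Pi.add_apply, hzz, hz1d, hz2d, mkL2_apply, mkL2_apply, mkL2_apply]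
    split_ifs <;> simp
  have hker : zz - (s : ℂ) • P.Ph t zz = 0 := by
    ext i
    rw [lp.coeFn_sub, Pi.sub_apply, lp.coeFn_smul, Pi.smul_apply, P.Phs t ht0, smul_eq_mul,
      lp.coeFn_zero, Pi.zero_apply, sub_eq_zero]
    exact hk i
  have hsplit : P.G u (z2 - (s : ℂ) • P.Ph t z2) = -P.G u (z1 - (s : ℂ) • P.Ph t z1) := by
    rw [eq_neg_iff_add_eq_zero, ← map_add]
    have h1 : z2 - (s : ℂ) • P.Ph t z2 + (z1 - (s : ℂ) • P.Ph t z1) = 0 := by
      rw [← hker, hadd, map_add, smul_add]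
      abel
    rw [h1, map_zero]
  have h2 : ∀ i ∈ P.J, z2 i = 0 := by
    intro i hi
    rw [hz2d, mkL2_apply, if_pos hi]
  have h1 : ∀ i ∉ P.J, z1 i = 0 := by
    intro i hi
    rw [hz1d, mkL2_apply, if_neg hi]
  have hco := P.coer u hu0 hu1 s hs0 hs1 z2 h2
  rw [hut, hsplit, inner_neg_right] at hco
  have hof := hC u hu2 hu1 s hs0 hs1 z2 z1 h2 h1
  rw [hut] at hof
  have hre : (-inner ℂ z2 (P.G u (z1 - (s : ℂ) • P.Ph t z1))).re ≤
      C * (1 - u) * ‖z2‖ * ‖z1‖ := by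
    refine le_trans (Complex.re_le_norm _) ?_
    rw [norm_neg]
    exact hof
  have hmain := le_trans hco hre
  have hz2n := norm_nonneg z2
  have hz1n := norm_nonneg z1
  have hbd : ‖z2‖ ≤ C' * ‖z1‖ := by
    rcases hu1.lt_or_eq with hlt | heq
    · have h3 : (1 - u) * ‖z2‖ ^ 2 ≤ (1 - s * u) * ‖z2‖ ^ 2 := by
        apply mul_le_mul_of_nonneg_right _ (sq_nonneg _)
        nlinarith
      have h4 : (1 - u) * (‖z2‖ ^ 2) ≤ (1 - u) * (C' * ‖z2‖ * ‖z1‖) := by
        refine le_trans h3 (le_trans hmain ?_)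
        have h5 : C * ((1 - u) * ‖z2‖ * ‖z1‖) ≤ C' * ((1 - u) * ‖z2‖ * ‖z1‖) := by
          apply mul_le_mul_of_nonneg_right (le_max_left _ _)
          have : 0 ≤ 1 - u := by linarith
          positivity
        nlinarith
      have h6 : ‖z2‖ ^ 2 ≤ C' * ‖z2‖ * ‖z1‖ := le_of_mul_le_mul_left h4 (by linarith)
      rcases hz2n.lt_or_eq with h7 | h7
      · have h8 : ‖z2‖ * ‖z2‖ ≤ ‖z2‖ * (C' * ‖z1‖) := by nlinarith
        exact le_of_mul_le_mul_left h8 h7
      · rw [← h7]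
        exact mul_nonneg (le_max_right _ _) hz1n
    · have hs' : s < 1 := by
        rcases hs1.lt_or_eq with h | h
        · exact h
        · exfalso
          apply hst
          rw [h, ← hut, heq, one_pow]
      rw [heq] at hmain
      have h3 : (1 - s) * ‖z2‖ ^ 2 ≤ 0 := by simpa using hmain
      have h4 : ‖z2‖ ^ 2 ≤ 0 := by
        by_contra h
        have := mul_pos (sub_pos.2 hs') (not_le.1 h)
        linarith
      have h5 : ‖z2‖ = 0 := by
        have := le_antisymm h4 (sq_nonneg _)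
        exact pow_eq_zero_iff (two_ne_zero) |>.1 this
      rw [h5]
      exact mul_nonneg (le_max_right _ _) hz1n
  -- the sums
  have hn1' : ‖z1‖ ^ 2 = ∑ i ∈ P.J, ‖z i‖ ^ 2 := by
    rw [l2_norm_sq, tsum_eq_sum (s := P.J)]
    · refine Finset.sum_congr rfl fun i hi => ?_
      rw [hz1d, mkL2_apply, if_pos hi]
    · intro i hi
      rw [h1 i hi]
      simp
  have htot : ∑' i, ‖z i‖ ^ 2 = ‖z1‖ ^ 2 + ‖z2‖ ^ 2 := by
    rw [l2_norm_sq, l2_norm_sq, ← (l2_summable z1).tsum_add (l2_summable z2)]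
    refine tsum_congr fun i => ?_
    rw [hz1d, hz2d, mkL2_apply, mkL2_apply]
    split_ifs <;> simp
  rw [htot, ← hn1']
  have h9 : ‖z2‖ ^ 2 ≤ C' ^ 2 * ‖z1‖ ^ 2 := by
    rw [← mul_pow]
    exact pow_le_pow_left₀ hz2n hbd 2
  linarith

end Pool.Agent.Helper80.SI
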