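import Pool.Agent.Helper99.SI.StF
import Pool.Agent.Helper80.SI.PackC1

set_option autoImplicit false

/-! Project SI, module F3: the estimate C1. -/

namespace Pool.Agent.Helper80.SI

open Pool.Agent.Helper99.SI

theorem hF3' : StF3 := by
  intro n L _ _ _ _ _ D m J0 P
  exact c1_of_pack D m J0 P

theorem hF3 (_h1 : StF2) : StF3 := hF3'

end Pool.Agent.Helper80.SI
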