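import Pool.Agent.Helper99.SI.StF

set_option autoImplicit false

/-! Project SI, module F9: the sign. -/

namespace Pool.Agent.Helper80.SI

open Pool.Agent.Helper99.SI Filter Topology

theorem det_map_eval {V : Type} [Fintype V] [DecidableEq V] (A : Matrix V V ℝ) (k : ℕ) (u : ℝ) :
    Polynomial.eval u (1 - (Polynomial.X ^ k : Polynomial ℝ) • A.map Polynomial.C).det =
      (1 - u ^ k • A).det := by
  have h := RingHom.map_det (Polynomial.evalRingHom u)
    (1 - (Polynomial.X ^ k : Polynomial ℝ) • A.map Polynomial.C)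
  rw [Polynomial.coe_evalRingHom] at h
  rw [h]
  congr 1
  ext i j
  by_cases hij : i = j
  · subst hij
    simp
    ring
  · simp [Matrix.one_apply_ne hij]
    ring

theorem zeros_finite {V : Type} [Fintype V] [DecidableEq V] (A : Matrix V V ℝ) (k : ℕ)
    (hk : k ≠ 0) (U : Set ℝ) : {u ∈ U | (1 - u ^ k • A).det = 0}.Finite := by
  have h0 : (1 - (Polynomial.X ^ k : Polynomial ℝ) • A.map Polynomial.C).det ≠ 0 := by
    intro h
    have h1 := det_map_eval A k 0
    rw [h, zero_pow hk] at h1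
    simp at h1
  refine (Polynomial.finite_setOfPred_isRoot h0).subset ?_
  rintro u ⟨_, hu⟩
  change Polynomial.eval u _ = 0
  rw [det_map_eval]
  exact hu

theorem hF9 (h1 : StS8) (h2 : StF4) (h3 : StF6) (h4 : StF7) (h5 : StF8) : StF9 := by
  intro n L _ _ _ _ _ D X0 m hn hm hX hP hNo hBa hE V _ _ A hG
  classical
  obtain ⟨J1, hJ1⟩ := h5 n L D X0 m hm V A hG
  obtain ⟨P⟩ := hP (J1 ∪ Finset.univ.image fun a => (Sum.inr a : Idx n m.r))
  have hn1 : P.n1 ≠ 0 := by have := P.hn1; omega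
  obtain ⟨S, hSc, hSr, hSi, hS0, hSk⟩ := h2 n L D X0 m hm _ P
  obtain ⟨SE, hSEc, hSE⟩ := h4 n L D X0 m hm hX hE _ P (by
    intro a
    exact Finset.mem_union_right _ (Finset.mem_image_of_mem _ (Finset.mem_univ a)))
  obtain ⟨SG, hSGc, hSG⟩ := hJ1 _ P Finset.subset_union_left
  have hdet : Continuous fun M : Matrix {i // i ∈ P.J} {i // i ∈ P.J} ℂ => M.det :=
    Continuous.matrix_det continuous_id
  have hre : Continuous fun M : Matrix {i // i ∈ P.J} {i // i ∈ P.J} ℂ => M.det.re :=
    Complex.continuous_re.comp hdet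
  have hD1 : ∀ s ∈ Set.Ico (0 : ℝ) 1, ((s, 1) : ℝ × ℝ) ∈ Dom := by
    intro s hs
    refine ⟨hs.1, hs.2.le, one_pos, le_rfl, ?_⟩
    rintro ⟨h, _⟩
    exact hs.2.ne h
  have hD2 : ∀ u ∈ Set.Ioo (0 : ℝ) 1, ((1, u) : ℝ × ℝ) ∈ Dom := by
    intro u hu
    refine ⟨zero_le_one, le_rfl, hu.1, hu.2.le, ?_⟩
    rintro ⟨_, h⟩
    exact hu.2.ne h
  have hEf := h3 0 1 (Set.Ico 0 1) one_pos (Or.inl rfl) (fun s => (S (s, 1)).det)
    (fun s => (SE s).det) (fun s => 1 - s * n) (hdet.comp_continuousOn hSEc)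
    (fun s hs => (hSE s hs).1) (fun s hs => hSi _ (hD1 s hs))
    (fun s hs => by
      rw [(hSE s hs).2 _ (hSr _ (hD1 s hs))]
      push_cast
      ring)
    (by
      refine (Set.finite_singleton (1 / (n : ℝ))).subset ?_
      rintro s ⟨_, hs⟩
      have hn0 : (n : ℝ) ≠ 0 := by
        have : n ≠ 0 := by omega
        exact_mod_cast this
      rw [Set.mem_singleton_iff, eq_div_iff hn0]
      linarith)
  have hGf := h3 0 1 (Set.Ioo 0 1) one_pos (Or.inr rfl) (fun u => (S (1, u)).det)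
    (fun u => (SG u).det) (fun u => (1 - u ^ P.n1 • A).det) (hdet.comp_continuousOn hSGc)
    (fun u hu => (hSG u hu).1) (fun u hu => hSi _ (hD2 u hu))
    (fun u hu => (hSG u hu).2 _ (hSr _ (hD2 u hu)))
    (zeros_finite A P.n1 hn1 _)
  have hne : ∀ x ∈ Dom, (S x).det ≠ 0 → (S x).det.re ≠ 0 := by
    intro x hx h h'
    exact h (Complex.ext h' (hSi x hx))
  have hq : Continuous fun u : ℝ => (1 - u ^ P.n1 • A).det := by
    apply Continuous.matrix_det
    exact continuous_const.sub ((continuous_id.pow _).smul continuous_const)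
  obtain ⟨t1, ht1, hB⟩ := hBa
  obtain ⟨ε, hε, hN⟩ := hNo
  have hfin := h1 (fun s u => (S (s, u)).det.re) (fun s => (SE s).det.re) (fun u => (SG u).det.re)
    (fun u => (1 - u ^ P.n1 • A).det) n (by exact_mod_cast hn)
    (hre.comp_continuousOn hSc)
    hS0 (hre.comp_continuousOn hSEc) hEf.1
    (fun s hs => by
      have h8 : (S (s, 1)).det.re = (SE s).det.re * (1 - s * n) := hEf.2 s hs
      change (S (s, 1)).det.re = (SE s).det.re * (1 - n * s)
      rw [h8]
      ring)
    (hre.comp_continuousOn hSGc) hGf.1 hq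
    (by simp [zero_pow hn1])
    hGf.2
    (by
      refine ⟨min t1 (1 / 2), lt_min ht1 (by norm_num), fun u hu hu1 hu2 s hs hs1 => ?_⟩
      have hd : ((s, u) : ℝ × ℝ) ∈ Dom := by
        refine ⟨hs, hs1, hu, hu2, ?_⟩
        rintro ⟨_, h⟩
        have := le_trans hu1 (min_le_right _ _)
        simp only at h
        linarith
      refine hne _ hd ((hSk _ hd).2 ?_)
      intro z hz hk
      refine hB (u ^ P.n1) (pow_pos hu _) ?_ s hs hs1 z hz hk
      refine le_trans ?_ (le_trans hu1 (min_le_left _ _))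
      calc u ^ P.n1 ≤ u ^ 1 := pow_le_pow_of_le_one hu.le hu2 P.hn1
        _ = u := pow_one u)
    (by
      have hn1' : (0 : ℝ) < P.n1 := by
        have := P.hn1
        exact_mod_cast this
      refine ⟨min (ε / P.n1) 1, lt_min (by positivity) one_pos, fun s u hs hs1 hu hu1 hsu => ?_⟩
      have hm1 := min_le_left (ε / (P.n1 : ℝ)) 1
      have hm2 := min_le_right (ε / (P.n1 : ℝ)) 1
      have hle : ε / (P.n1 : ℝ) ≤ ε := by
        apply div_le_self hε.le
        exact_mod_cast P.hn1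
      have hd : ((s, u) : ℝ × ℝ) ∈ Dom := ⟨by simp only; linarith, hs1, by simp only; linarith, hu1, hsu⟩
      have hu0 : 0 < u := by linarith
      refine hne _ hd ((hSk _ hd).2 ?_)
      intro z hz hk
      refine hN s (u ^ P.n1) (by linarith) hs1 ?_ (pow_le_one₀ hu0.le hu1) ?_ z hz hk
      · have hb := one_add_mul_le_pow (a := u - 1) (by linarith) P.n1
        have he : 1 + (u - 1) = u := by ring
        rw [he] at hb
        have h6 : (P.n1 : ℝ) * (1 - u) < ε := by
          have h7 : 1 - u < ε / P.n1 := by linarith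
          calc (P.n1 : ℝ) * (1 - u) < P.n1 * (ε / P.n1) := mul_lt_mul_of_pos_left h7 hn1'
            _ = ε := by field_simp
        nlinarith
      · intro h
        rw [Prod.mk.injEq] at h
        exact hsu ⟨h.1, (pow_eq_one_iff_of_nonneg hu0.le hn1).1 h.2⟩)
  simpa using hfin

end Pool.Agent.Helper80.SI
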