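import Pool.Agent.Helper99.SI.StK

set_option autoImplicit false
set_option linter.unusedSectionVars false

/-! Project SI, module K5: relation of the two coefficient sums. -/

namespace Pool.Agent.Helper80.SI

open Pool.Agent.Helper99.SI

variable {n : ℕ} {L : Type} [Ring L] [Algebra ℂ L] [StarRing L] [StarModule ℂ L] [Nontrivial L]

theorem ip_single_left' (μ : W n) (q : W n →₀ ℂ) :
    Sys.ip (Finsupp.single μ 1) q = star (q μ) := by
  unfold Sys.ip
  rw [Finsupp.sum_single_index]
  · simp
  · simp

theorem ip_single_right' (μ : W n) (p : W n →₀ ℂ) :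
    Sys.ip p (Finsupp.single μ 1) = p μ := by
  unfold Sys.ip
  rw [Finsupp.sum, Finset.sum_eq_single μ]
  · simp
  · intro i _ hi
    rw [Finsupp.single_apply, if_neg (fun h => hi h.symm)]
    simp
  · intro h
    rw [Finsupp.notMem_support_iff.1 h]
    simp

theorem hK5 (h1 : StA4) (h2 : StA6) : StK5 := by
  intro n L _ _ _ _ _ D b y
  obtain ⟨l, _, hl⟩ := h1 n L D y
  obtain ⟨l', _, hl'⟩ := h1 n L D (star y)
  have hemb : ∀ μ : W n, D.emb (Finsupp.single μ 1) = D.w μ := by
    intro μ
    simp [Sys.emb]
  refine ⟨max l l', fun N hN => ?_⟩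
  unfold Sys.sigN Sys.tauN
  rw [star_sum]
  refine Finset.sum_congr rfl fun i _ => ?_
  rw [star_sum]
  refine Finset.sum_congr rfl fun p _ => ?_
  have h3 : l ≤ (List.ofFn p ++ b).length := by
    rw [List.length_append, List.length_ofFn]
    have := le_trans (le_max_left l l') hN
    omega
  have h4 : l' ≤ (List.ofFn p).length := by
    rw [List.length_ofFn]
    have := le_trans (le_max_right l l') hN
    omega
  have h5 := h2 n L D y (Finsupp.single (List.ofFn p ++ b) 1) (Finsupp.single (List.ofFn p) 1)
    (by rw [hemb]; exact (hl _ h3).1) (by rw [hemb]; exact (hl' _ h4).1)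
  rw [ip_single_left', ip_single_right', hemb, hemb] at h5
  exact h5

end Pool.Agent.Helper80.SI
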