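import Pool.Agent.Helper80.SI.StN

set_option autoImplicit false
set_option linter.unusedSectionVars false

/-! Project SI, module N9: the functional at H. -/

namespace Pool.Agent.Helper80.SI

open Pool.Agent.Helper99.SI Filter Topology

section

variable {n : ℕ} {L : Type} [Ring L] [Algebra ℂ L] [StarRing L] [StarModule ℂ L]

/-- the basic function of a word -/
noncomputable def fW (D : Sys n L) (T : L →ₗ[ℂ] ℂ) : W n → ℂ
  | [] => 0
  | i :: μ => T (D.w μ * D.b.dd (D.x i))

theorem w_cons' (D : Sys n L) (i : Fin n) (μ : W n) : D.w (i :: μ) = D.x i * D.w μ := by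
  simp [Sys.w, wd]

theorem w_nil' (D : Sys n L) : D.w [] = 1 := by
  simp [Sys.w, wd]

theorem w_app' (D : Sys n L) (μ ν : W n) : D.w (μ ++ ν) = D.w μ * D.w ν := by
  simp [Sys.w, wd]

/-- the trace of the derivative of a word -/
theorem trace_dd (D : Sys n L) (T : L →ₗ[ℂ] ℂ) (hT : ∀ a b, T (a * b) = T (b * a))
    (hdd : ∀ y z : L, D.b.dd (y * z) = D.b.dd y * z + y * D.b.dd z) (μ : W n) :
    ∀ ρ : W n, T (D.b.dd (D.w μ) * D.w ρ) =
      ∑ r ∈ Finset.range μ.length, fW D T ((μ ++ ρ).rotate r) := by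
  have hdd1 : D.b.dd (1 : L) = 0 := by
    have := hdd 1 1
    simpa using this
  induction μ with
  | nil =>
    intro ρ
    rw [w_nil', hdd1]
    simp
  | cons i μ ih =>
    intro ρ
    rw [w_cons', hdd, add_mul, map_add, List.length_cons, Finset.sum_range_succ']
    have h1 : T (D.b.dd (D.x i) * D.w μ * D.w ρ) = fW D T ((i :: μ ++ ρ).rotate 0) := by
      rw [List.rotate_zero, List.cons_append]
      simp only [fW]
      rw [mul_assoc, ← w_app', hT]
    have h2 : T (D.x i * D.b.dd (D.w μ) * D.w ρ) =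
        ∑ r ∈ Finset.range μ.length, fW D T ((i :: μ ++ ρ).rotate (r + 1)) := by
      rw [mul_assoc, hT, mul_assoc]
      have h3 : D.w ρ * D.x i = D.w (ρ ++ [i]) := by
        rw [w_app', w_cons', w_nil', mul_one]
      rw [h3, ih]
      refine Finset.sum_congr rfl fun r _ => ?_
      rw [List.cons_append, List.rotate_cons_succ, List.append_assoc]
    rw [h1, h2, add_comm]

theorem trace_HH (D : Sys n L) (T : L →ₗ[ℂ] ℂ) (hT : ∀ a b, T (a * b) = T (b * a)) (μ : W n)
    (hμ : μ ≠ []) : T (D.w μ * HH D) = fW D T μ := by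
  obtain ⟨i, μ, rfl⟩ := List.exists_cons_of_ne_nil hμ
  unfold HH
  rw [Finset.mul_sum, map_sum, Finset.sum_eq_single i]
  · rw [← mul_assoc, hT, w_cons', ← mul_assoc, ← mul_assoc, D.orth, if_pos rfl, one_mul]
    rfl
  · intro j _ hj
    rw [← mul_assoc, hT, w_cons', ← mul_assoc, ← mul_assoc, D.orth, if_neg hj, zero_mul, zero_mul,
      map_zero]
  · intro h
    exact absurd (Finset.mem_univ i) h

theorem sum_rotate (u : W n →₀ ℂ) (l : ℕ) (hu : RotInv u) (hl : ∀ ν, u ν ≠ 0 → ν.length = l)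
    (f : W n → ℂ) (r : ℕ) (hr : r ≤ l) :
    ∑ μ ∈ u.support, u μ * f (μ.rotate r) = ∑ μ ∈ u.support, u μ * f μ := by
  refine Finset.sum_nbij' (fun μ => μ.rotate r) (fun μ => μ.rotate (l - r)) ?_ ?_ ?_ ?_ ?_
  · intro μ hμ
    rw [Finsupp.mem_support_iff] at hμ ⊢
    rwa [hu]
  · intro μ hμ
    rw [Finsupp.mem_support_iff] at hμ ⊢
    rwa [hu]
  · intro μ hμ
    have h1 := hl μ (Finsupp.mem_support_iff.1 hμ)
    change (μ.rotate r).rotate (l - r) = μ
    rw [List.rotate_rotate, Nat.add_sub_cancel' hr, ← h1, List.rotate_length]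
  · intro μ hμ
    have h1 := hl μ (Finsupp.mem_support_iff.1 hμ)
    change (μ.rotate (l - r)).rotate r = μ
    rw [List.rotate_rotate, Nat.sub_add_cancel hr, ← h1, List.rotate_length]
  · intro μ _
    rw [hu]

theorem trace_main (D : Sys n L) (T : L →ₗ[ℂ] ℂ) (hT : ∀ a b, T (a * b) = T (b * a))
    (hdd : ∀ y z : L, D.b.dd (y * z) = D.b.dd y * z + y * D.b.dd z)
    (u : W n →₀ ℂ) (l : ℕ) (hl1 : 1 ≤ l) (hu : RotInv u) (hl : ∀ ν, u ν ≠ 0 → ν.length = l) :
    (l : ℂ) * T (D.emb u * HH D) = T (D.b.dd (D.emb u)) := by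
  have h1 : T (D.emb u * HH D) = ∑ μ ∈ u.support, u μ * fW D T μ := by
    rw [Sys.emb, Finsupp.linearCombination_apply, Finsupp.sum, Finset.sum_mul, map_sum]
    refine Finset.sum_congr rfl fun μ hμ => ?_
    rw [smul_mul_assoc, map_smul, smul_eq_mul, trace_HH D T hT]
    rintro rfl
    have := hl _ (Finsupp.mem_support_iff.1 hμ)
    simp at this
    omega
  have h2 : T (D.b.dd (D.emb u)) =
      ∑ μ ∈ u.support, u μ * ∑ r ∈ Finset.range l, fW D T (μ.rotate r) := by
    rw [Sys.emb, Finsupp.linearCombination_apply, Finsupp.sum, map_sum, map_sum]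
    refine Finset.sum_congr rfl fun μ hμ => ?_
    rw [map_smul, map_smul, smul_eq_mul]
    have h3 := trace_dd D T hT hdd μ []
    rw [w_nil', mul_one, List.append_nil, hl _ (Finsupp.mem_support_iff.1 hμ)] at h3
    rw [h3]
  rw [h1, h2]
  have h3 : ∑ μ ∈ u.support, u μ * ∑ r ∈ Finset.range l, fW D T (μ.rotate r) =
      ∑ r ∈ Finset.range l, ∑ μ ∈ u.support, u μ * fW D T (μ.rotate r) := by
    rw [Finset.sum_comm]
    refine Finset.sum_congr rfl fun μ _ => ?_
    rw [Finset.mul_sum]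
  rw [h3, Finset.sum_congr rfl fun r hr => sum_rotate u l hu hl (fW D T) r
    (Finset.mem_range.1 hr).le, Finset.sum_const, Finset.card_range, nsmul_eq_mul]

end

theorem hN9 (h1 : StA0) (h2 : StA1) (h3 : StK2) (h4 : StK3) (h5 : StK7) : StN9 := by
  intro n L _ _ _ _ _ D u l c hc hl1 hu hl
  obtain ⟨_, _, _, _, _, _, _, hdd, _, hst⟩ := h1 L D.b
  obtain ⟨_, hadd, hsmul, _⟩ := h3 n L D c hc
  let T : L →ₗ[ℂ] ℂ := ⟨⟨D.tau c, hadd⟩, hsmul⟩
  have hT : ∀ a b, T (a * b) = T (b * a) := (h4 n L D c hc).1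
  let T' : L →ₗ[ℂ] ℂ :=
    { toFun := fun y => star (T (star y))
      map_add' := fun y z => by rw [star_add, map_add, star_add]
      map_smul' := fun a y => by
        rw [star_smul, map_smul, smul_eq_mul, star_mul', star_star, RingHom.id_apply, smul_eq_mul] }
  have hT'a : ∀ y, T' y = star (T (star y)) := fun y => rfl
  have hT' : ∀ a b, T' (a * b) = T' (b * a) := by
    intro a b
    rw [hT'a, hT'a, star_mul, star_mul, hT]
  refine ⟨trace_main D T hT hdd u l hl1 hu hl, ?_⟩
  -- HH is self adjoint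
  have hH : star (HH D) = HH D := by
    have h6 : D.b.dd (1 : L) = 0 := by
      have := hdd 1 1
      simpa using this
    have h7 : ∑ i, (D.b.dd (D.x i) * star (D.x i) + D.x i * D.b.dd (star (D.x i))) = 0 := by
      rw [← h6, ← D.comp, map_sum]
      exact Finset.sum_congr rfl fun i _ => (hdd _ _).symm
    rw [Finset.sum_add_distrib] at h7
    have h8 : star (HH D) = -∑ i, D.x i * D.b.dd (star (D.x i)) := by
      unfold HH
      rw [star_sum, ← Finset.sum_neg_distrib]
      refine Finset.sum_congr rfl fun i _ => ?_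
      rw [star_mul, star_star, hst, mul_neg]
    rw [h8]
    unfold HH
    exact (eq_neg_of_add_eq_zero_left h7).symm
  -- ghost words
  have hg : ∀ a : W n, T (D.b.dd (star (D.w a))) = 0 := by
    intro a
    change T (∑ᶠ j : ℤ, (j : ℂ) • D.b.p j (star (D.w a))) = 0
    have hf := D.b.fin' (fun j : ℤ => (j : ℂ)) (star (D.w a))
    rw [finsum_eq_sum _ hf, map_sum]
    refine Finset.sum_eq_zero fun j _ => ?_
    rw [map_smul]
    have h9 : T (D.b.p j (star (D.w a))) = 0 := h5 n L D a c j hc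
    rw [h9, smul_zero]
  have hz : T (D.b.dd (star (D.emb u))) = 0 := by
    rw [Sys.emb, Finsupp.linearCombination_apply, Finsupp.sum, star_sum, map_sum, map_sum]
    refine Finset.sum_eq_zero fun μ _ => ?_
    rw [star_smul, map_smul, map_smul, hg, smul_zero]
  have h10 := trace_main D T' hT' hdd u l hl1 hu hl
  have h11 : T' (D.b.dd (D.emb u)) = 0 := by
    rw [hT'a, hst, map_neg, hz, neg_zero, star_zero]
  have h12 : T' (D.emb u * HH D) = star (T (star (D.emb u) * HH D)) := by
    rw [hT'a, star_mul, hH, hT]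
  rw [h11, h12] at h10
  have h13 : (l : ℂ) ≠ 0 := by
    have : l ≠ 0 := by omega
    exact_mod_cast this
  have h14 := (mul_eq_zero.1 h10).resolve_left h13
  exact star_eq_zero.1 h14

end Pool.Agent.Helper80.SI
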