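import Pool.Agent.Helper99.SI.StT

set_option autoImplicit false

/-!
# Project SI, module T1: the Cuntz family
-/

namespace Pool.Agent.Helper80.SI

open Pool.Agent.Helper99.SI Pool.Agent.Helper92 Pool.Agent.Helper92.LV

section words

variable {n : ℕ} {L : Type} [Ring L]

lemma t1_wd_nil (x : Fin n → L) : wd x ([] : W n) = 1 := by simp [wd]

lemma t1_wd_cons (x : Fin n → L) (i : Fin n) (μ : W n) : wd x (i :: μ) = x i * wd x μ := by
  simp [wd]

lemma t1_wd_append (x : Fin n → L) (μ ν : W n) : wd x (μ ++ ν) = wd x μ * wd x ν := by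
  simp [wd]

end words

section cuntz

variable {n : ℕ} {L : Type} [Ring L] [Algebra ℂ L] [StarRing L] [StarModule ℂ L]
  (x : Fin n → L) (horth : ∀ i j, star (x i) * x j = if i = j then 1 else 0)
  (hcomp : ∑ i, x i * star (x i) = 1)

include horth in
/-- Products of a ghost word and a word are words, ghost words or zero; here: the level. -/
lemma t1_level (β κ : W n) (h : β.length ≤ κ.length) :
    star (wd x β) * wd x κ = 0 ∨ ∃ ν : W n, star (wd x β) * wd x κ = wd x ν := by
  induction β generalizing κ with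
  | nil => right; exact ⟨κ, by simp [t1_wd_nil]⟩
  | cons i β ih =>
    cases κ with
    | nil => simp at h
    | cons j κ =>
      rw [t1_wd_cons, t1_wd_cons, star_mul]
      have e1 : star (wd x β) * star (x i) * (x j * wd x κ) =
          star (wd x β) * ((star (x i) * x j) * wd x κ) := by
        simp only [mul_assoc]
      rw [e1, horth]
      by_cases hij : i = j
      · rw [if_pos hij, one_mul]
        exact ih κ (by simpa using h)
      · left
        rw [if_neg hij, zero_mul, mul_zero]

/-- the span of all monomials -/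
def t1_M : Submodule ℂ L :=
  Submodule.span ℂ (Set.range fun q : W n × W n => wd x q.1 * star (wd x q.2))

lemma t1_mem (α β : W n) : wd x α * star (wd x β) ∈ t1_M x :=
  Submodule.subset_span ⟨(α, β), rfl⟩

lemma t1_left_x (i : Fin n) {y : L} (hy : y ∈ t1_M x) : x i * y ∈ t1_M x := by
  unfold t1_M at hy
  induction hy using Submodule.span_induction with
  | mem y hy =>
    obtain ⟨⟨α, β⟩, rfl⟩ := hy
    have := t1_mem x (i :: α) β
    rw [t1_wd_cons, mul_assoc] at this
    exact this
  | zero => rw [mul_zero]; exact Submodule.zero_mem _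
  | add a b _ _ ha hb => rw [mul_add]; exact Submodule.add_mem _ ha hb
  | smul c a _ ha => rw [mul_smul_comm]; exact Submodule.smul_mem _ _ ha

include horth in
lemma t1_left_sx (i : Fin n) {y : L} (hy : y ∈ t1_M x) : star (x i) * y ∈ t1_M x := by
  unfold t1_M at hy
  induction hy using Submodule.span_induction with
  | mem y hy =>
    obtain ⟨⟨α, β⟩, rfl⟩ := hy
    cases α with
    | nil =>
      have := t1_mem x ([] : W n) (β ++ [i])
      rw [t1_wd_nil, one_mul, t1_wd_append, star_mul] at this
      simp only [t1_wd_nil, one_mul]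
      simpa [t1_wd_cons, t1_wd_nil] using this
    | cons j α =>
      change star (x i) * (wd x (j :: α) * star (wd x β)) ∈ _
      rw [t1_wd_cons]
      have e1 : star (x i) * (x j * wd x α * star (wd x β)) =
          (star (x i) * x j) * (wd x α * star (wd x β)) := by
        simp only [mul_assoc]
      rw [e1, horth]
      by_cases hij : i = j
      · rw [if_pos hij, one_mul]
        exact t1_mem x α β
      · rw [if_neg hij, zero_mul]
        exact Submodule.zero_mem _
  | zero => rw [mul_zero]; exact Submodule.zero_mem _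
  | add a b _ _ ha hb => rw [mul_add]; exact Submodule.add_mem _ ha hb
  | smul c a _ ha => rw [mul_smul_comm]; exact Submodule.smul_mem _ _ ha

include horth in
lemma t1_span (s : Set L) (hs : ∀ a ∈ s, a = 1 ∨ (∃ i, a = x i) ∨ ∃ i, a = star (x i))
    (hgen : Algebra.adjoin ℂ s = ⊤) (y : L) : y ∈ t1_M x := by
  have key : ∀ a ∈ Algebra.adjoin ℂ s, ∀ z ∈ t1_M x, a * z ∈ t1_M x := by
    intro a ha
    induction ha using Algebra.adjoin_induction with
    | mem a ha =>
      intro z hz
      rcases hs a ha with rfl | ⟨i, rfl⟩ | ⟨i, rfl⟩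
      · rw [one_mul]; exact hz
      · exact t1_left_x x i hz
      · exact t1_left_sx x horth i hz
    | algebraMap c =>
      intro z hz
      rw [← Algebra.smul_def]
      exact Submodule.smul_mem _ _ hz
    | add a b _ _ ha hb =>
      intro z hz
      rw [add_mul]
      exact Submodule.add_mem _ (ha z hz) (hb z hz)
    | mul a b _ _ ha hb =>
      intro z hz
      rw [mul_assoc]
      exact ha _ (hb z hz)
  have h1 : (1 : L) ∈ t1_M x := by
    have := t1_mem x ([] : W n) []
    simpa [t1_wd_nil] using this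
  have hy : y ∈ Algebra.adjoin ℂ s := by rw [hgen]; exact Algebra.mem_top
  have := key y hy 1 h1
  rwa [mul_one] at this

include horth in
lemma t1_levels (y : L) (hy : y ∈ t1_M x) :
    ∃ l : ℕ, ∀ κ : W n, l ≤ κ.length → y * wd x κ ∈ Submodule.span ℂ (Set.range (wd x)) := by
  unfold t1_M at hy
  induction hy using Submodule.span_induction with
  | mem y hy =>
    obtain ⟨⟨α, β⟩, rfl⟩ := hy
    refine ⟨β.length, fun κ hκ => ?_⟩
    change wd x α * star (wd x β) * wd x κ ∈ _
    rw [mul_assoc]
    rcases t1_level x horth β κ hκ with h | ⟨ν, h⟩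
    · rw [h, mul_zero]; exact Submodule.zero_mem _
    · rw [h, ← t1_wd_append]
      exact Submodule.subset_span ⟨α ++ ν, rfl⟩
  | zero => exact ⟨0, fun κ _ => by rw [zero_mul]; exact Submodule.zero_mem _⟩
  | add a b _ _ ha hb =>
    obtain ⟨l1, h1⟩ := ha
    obtain ⟨l2, h2⟩ := hb
    refine ⟨max l1 l2, fun κ hκ => ?_⟩
    rw [add_mul]
    exact Submodule.add_mem _ (h1 κ (le_trans (le_max_left _ _) hκ))
      (h2 κ (le_trans (le_max_right _ _) hκ))
  | smul c a _ ha =>
    obtain ⟨l, h⟩ := ha
    refine ⟨l, fun κ hκ => ?_⟩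
    rw [smul_mul_assoc]
    exact Submodule.smul_mem _ _ (h κ hκ)

include hcomp in
lemma t1_compk (k : ℕ) :
    ∑ κ : Fin k → Fin n, wd x (List.ofFn κ) * star (wd x (List.ofFn κ)) = 1 := by
  induction k with
  | zero => simp [t1_wd_nil]
  | succ k ih =>
    rw [← (Fin.consEquiv (fun _ : Fin (k + 1) => Fin n)).sum_comp]
    rw [Fintype.sum_prod_type]
    have e1 : ∀ i : Fin n, ∑ κ : Fin k → Fin n,
        wd x (List.ofFn ((Fin.consEquiv (fun _ : Fin (k + 1) => Fin n)) (i, κ))) *
          star (wd x (List.ofFn ((Fin.consEquiv (fun _ : Fin (k + 1) => Fin n)) (i, κ)))) =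
        x i * star (x i) := by
      intro i
      have e2 : ∀ κ : Fin k → Fin n,
          wd x (List.ofFn ((Fin.consEquiv (fun _ : Fin (k + 1) => Fin n)) (i, κ))) *
          star (wd x (List.ofFn ((Fin.consEquiv (fun _ : Fin (k + 1) => Fin n)) (i, κ)))) =
          x i * (wd x (List.ofFn κ) * star (wd x (List.ofFn κ))) * star (x i) := by
        intro κ
        have e3 : List.ofFn ((Fin.consEquiv (fun _ : Fin (k + 1) => Fin n)) (i, κ)) =
            i :: List.ofFn κ := by
          rw [List.ofFn_succ]
          simp [Fin.consEquiv]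
        rw [e3, t1_wd_cons, star_mul]
        simp only [mul_assoc]
      rw [Finset.sum_congr rfl fun κ _ => e2 κ, ← Finset.sum_mul, ← Finset.mul_sum, ih, mul_one]
    rw [Finset.sum_congr rfl fun i _ => e1 i, hcomp]

end cuntz

section rosefam

variable {n : ℕ} {L : Type} [Ring L] [Algebra ℂ L] (f : Fam ℂ (rose n) L) (h1 : f.v () = 1)

include h1 in
lemma t1_pl (l : List (Fin n)) : f.pl () l = wd f.e l.reverse := by
  induction l with
  | nil => simp [Fam.pl, t1_wd_nil, h1]
  | cons i l ih =>
    rw [List.reverse_cons, t1_wd_append, ← ih]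
    simp [Fam.pl, t1_wd_cons, t1_wd_nil]

lemma t1_ok (l : List (Fin n)) : ok (rose n) () l := by
  induction l with
  | nil => trivial
  | cons i l ih => exact ⟨ih, rfl⟩

include h1 in
lemma t1_range : Set.range f.pe = Set.range (wd f.e) := by
  ext y
  constructor
  · rintro ⟨p, rfl⟩
    obtain ⟨⟨⟨⟩, l⟩, hp⟩ := p
    exact ⟨l.reverse, (t1_pl f h1 l).symm⟩
  · rintro ⟨μ, rfl⟩
    refine ⟨⟨((), μ.reverse), t1_ok _⟩, ?_⟩
    have := t1_pl f h1 μ.reverse
    rw [List.reverse_reverse] at this
    exact this

end rosefam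

/-- SI module T1. -/
theorem hT1 : StT1 := by
  intro n V E _ _ _ _ G L _ _ _ _ T hn
  have h1 : T.fE.v () = 1 := by
    have := T.fE.one
    simpa using this
  have horth : ∀ i j, star (T.fE.e i) * T.fE.e j = if i = j then 1 else 0 := by
    intro i j
    have := T.fE.ck1 i j
    rw [T.Eg] at this
    rw [this]
    split_ifs
    · exact h1
    · rfl
  have hcomp : ∑ i, T.fE.e i * star (T.fE.e i) = 1 := by
    have hex : ∃ i, (rose n).s i = () := ⟨⟨0, hn⟩, rfl⟩
    have := T.fE.ck2 () hex
    rw [h1] at this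
    rw [this]
    have hf : (Finset.univ.filter fun i : Fin n => (rose n).s i = ()) = Finset.univ := by
      ext i
      simp
    rw [hf]
    exact Finset.sum_congr rfl fun i _ => by rw [T.Eg]
  have hspan : ∀ y : L, y ∈ t1_M T.fE.e := by
    intro y
    refine t1_span T.fE.e horth _ ?_ T.Egen y
    rintro a ((⟨u, rfl⟩ | ⟨i, rfl⟩) | ⟨i, rfl⟩)
    · left; exact h1
    · right; left; exact ⟨i, rfl⟩
    · right; right; exact ⟨i, T.Eg i⟩
  refine ⟨h1, horth, hcomp, hspan, ?_, ?_, ?_⟩
  · unfold Fam.O
    rw [t1_range T.fE h1]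
  · intro y
    exact t1_levels T.fE.e horth y (hspan y)
  · exact t1_compk T.fE.e hcomp

end Pool.Agent.Helper80.SI
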