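import Pool.Agent.Helper80.SI.StN

set_option autoImplicit false
set_option linter.unusedSectionVars false

/-! Project SI, section 6: assembly of StNEAR from the modules. -/

namespace Pool.Agent.Helper80.SI

open Pool.Agent.Helper99.SI Filter Topology

theorem nsq_nonneg {ι : Type} (u : ι →₀ ℂ) : 0 ≤ nsq u :=
  Finset.sum_nonneg fun _ _ => sq_nonneg _

theorem eq_zero_of_nsq {ι : Type} (u : ι →₀ ℂ) (h : nsq u = 0) : u = 0 := by
  by_contra hu
  obtain ⟨i, hi⟩ := Finsupp.ne_iff.1 hu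
  have h1 : ‖u i‖ ^ 2 ≤ nsq u :=
    Finset.single_le_sum (f := fun i => ‖u i‖ ^ 2) (fun _ _ => sq_nonneg _)
      (Finsupp.mem_support_iff.2 hi)
  rw [h] at h1
  have h2 : 0 < ‖u i‖ := norm_pos_iff.2 hi
  nlinarith [pow_pos h2 2]

theorem near (a3 : StA3) (n2 : StN2) (n3 : StN3) (n5 : StN5) (n6 : StN6) (n7 : StN7) (n8 : StN8)
    (n12 : StN12) (n13 : StN13) (n16 : StN16) (n17 : StN17) (n18 : StN18) (n19 : StN19) :
    StNEAR := by
  intro n L _ _ _ _ _ D X0 m hm hn hC
  -- positive components of every limit vanish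
  have pos : ∀ (s t : ℕ → ℝ) (zz : ℕ → Idx n m.r → ℂ) (z : Idx n m.r → ℂ) (σ τ : ℝ),
      Lim m s t zz z σ τ → ∀ g : ℕ, 1 ≤ g → comp D m z g = 0 := by
    intro s t zz z σ τ hL
    have hk := n3 n L D X0 m s t zz z σ τ hm hL
    have hcomp : ∀ g : ℕ, 1 ≤ g → D.emb (mgf D m z g) = comp D m z g ∧ RotInv (mgf D m z g) ∧
        ∀ ν, mgf D m z g ν ≠ 0 → ν.length = g := by
      intro g hg
      obtain ⟨h1, h2⟩ := n7 n L D X0 m z g hm hk
      obtain ⟨h3, h4, h5⟩ := (n8 n L D (comp D m z g) g h2 h1).2.1 (by exact_mod_cast hg)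
      have h6 : mgf D m z g = D.cf (comp D m z g) := by
        unfold mgf
        rw [if_neg (by omega)]
      rw [h6]
      refine ⟨(a3 n L D).2.2.1 _ h3, h4, fun ν hν => ?_⟩
      exact_mod_cast h5 ν hν
    have h0 : mgf D m z 0 = 0 := by
      unfold mgf
      rw [if_pos rfl]
    obtain ⟨C, b, N0, hN⟩ := n16 n L D (fun g => mgf D m z g) σ τ hL.σ0 hL.τ0 hL.στ
      (by
        intro g
        rcases Nat.eq_zero_or_pos g with rfl | hg
        · intro c i
          rw [h0]
          rfl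
        · exact (hcomp g hg).2.1)
      (by
        intro g ν hν
        rcases Nat.eq_zero_or_pos g with rfl | hg
        · exact absurd (by rw [h0]; rfl) hν
        · exact (hcomp g hg).2.2 ν hν)
      h0
      (by
        intro c hc
        have h1 := n12 n L D X0 m s t zz z σ τ c hm hL hc
        obtain ⟨h2, h3⟩ := n13 n L D X0 m z c hm hn hk hc
        rw [h2, h3] at h1
        exact h1)
    intro g hg
    have h1 := n17 (fun g => nsq (mgf D m z g)) C b N0 (fun g => nsq_nonneg _)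
      (n19 n L D X0 m z hm hL.sum) hN g hg
    rw [← (hcomp g hg).1, eq_zero_of_nsq _ h1, map_zero]
  by_contra hno
  obtain ⟨s, t, zz, z, σ, τ, hL, hz⟩ := n2 n L D X0 m hm hC hno
  have hk := n3 n L D X0 m s t zz z σ τ hm hL
  refine hz (n18 n L D X0 m z hm hk fun l => ?_)
  rcases lt_trichotomy l 0 with hl | rfl | hl
  · have h1 := pos s t _ _ σ τ (n5 n L D X0 m s t zz z σ τ hm hL) (-l).toNat (by omega)
    have h2 : (((-l).toNat : ℕ) : ℤ) = -l := Int.toNat_of_nonneg (by omega)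
    rw [h2, n6 n L D X0 m z (-l) hm, neg_neg] at h1
    exact star_eq_zero.1 h1
  · obtain ⟨h1, h2⟩ := n7 n L D X0 m z 0 hm hk
    exact (n8 n L D _ 0 h2 h1).1 rfl hn
  · have h1 := pos s t zz z σ τ hL l.toNat (by omega)
    have h2 : ((l.toNat : ℕ) : ℤ) = l := Int.toNat_of_nonneg (by omega)
    rwa [h2] at h1

end Pool.Agent.Helper80.SI
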