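import Pool.Agent.Helper80.SI.Near
import Pool.Agent.Helper80.SI.PackC1
import Pool.Agent.Helper80.SI.M_N9
import Pool.Agent.Helper19.SI.M_N13
import Pool.Agent.Helper29.SI.M_N1
import Pool.Agent.Helper37.SI.M_N5
import Pool.Agent.Helper41.SI.M_N3
import Pool.Agent.Helper42.SI.M_N17
import Pool.Agent.Helper47.SI.M_N14
import Pool.Agent.Helper5.SI.M_N12
import Pool.Agent.Helper5.SI.M_N2
import Pool.Agent.Helper62.SI.M_N6
import Pool.Agent.Helper63.SI.M_N11
import Pool.Agent.Helper8.SI.M_N18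
import Pool.Agent.Helper78.SI.M_N16
import Pool.Agent.Helper81.SI.M_N8
import Pool.Agent.Helper83.SI.M_N10
import Pool.Agent.Helper83.SI.M_N19
import Pool.Agent.Helper90.SI.M_N15
import Pool.Agent.Helper92.SI.M_N4
import Pool.Agent.Helper93.SI.M_N7

set_option autoImplicit false

/-! Project SI, section 6: StNEAR from the algebraic and the cyclic input. -/

namespace Pool.Agent.Helper80.SI

open Pool.Agent.Helper99.SI

theorem nearAll (a0 : StA0) (a1 : StA1) (a2 : StA2) (a3 : StA3) (a4 : StA4) (a5 : StA5)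
    (a8 : StA8) (k2 : StK2) (k3 : StK3) (k7 : StK7) (k15 : StK15) (k16 : StK16) : StNEAR := by
  have n4 := Helper92.SI.hN4
  have n5 := Helper37.SI.hN5 n4
  have n6 := Helper62.SI.hN6 a0 a2
  have n7 := Helper93.SI.hN7 a0 a2 a8
  have n8 := Helper81.SI.hN8 a0 a1 a2 a3 a4 a5 a8
  have n9 := hN9 a0 a1 k2 k3 k7
  have n10 := Helper83.SI.hN10 a0 a2 k2 k3
  have n11 := Helper63.SI.hN11 a0 a8 k2 k3 n10
  have n12 := Helper5.SI.hN12 a0 k2 n10 n11
  have n15 := Helper90.SI.hN15 a0 k2 k3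
  have n13 := Helper19.SI.hN13 a0 a2 a3 k2 k3 n7 n8 n9 n10 n15
  have n14 := Helper47.SI.hN14 a1 a3 k2 k3 k15
  have n16 := Helper78.SI.hN16 a2 k2 k15 k16 n9 n14 n15
  exact near a3 (Helper5.SI.hN2 Helper29.SI.hN1) Helper41.SI.hN3 n5 n6 n7 n8 n12 n13 n16
    Helper42.SI.hN17 (Helper8.SI.hN18 a0 a2 a3) (Helper83.SI.hN19 a0 a2 a3)

/-- the same with the conclusion in the form used for the sign, from an operator package -/
theorem noKer (a0 : StA0) (a1 : StA1) (a2 : StA2) (a3 : StA3) (a4 : StA4) (a5 : StA5)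
    (a8 : StA8) (k2 : StK2) (k3 : StK3) (k7 : StK7) (k15 : StK15) (k16 : StK16)
    (n : ℕ) (L : Type) [Ring L] [Algebra ℂ L] [StarRing L] [StarModule ℂ L] [Nontrivial L]
    (D : Sys n L) (X0 : Set L) (m : MData n L) (hm : IsModel D X0 m) (hn : 2 ≤ n)
    (J0 : Finset (Idx n m.r)) (P : OpPack D m J0) : NoKer m :=
  nearAll a0 a1 a2 a3 a4 a5 a8 k2 k3 k7 k15 k16 n L D X0 m hm hn (c1_of_pack D m J0 P)

end Pool.Agent.Helper80.SI
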