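import Pool.Agent.Helper99.SI.StK
import Pool.Agent.Helper99.SI.Defs2

set_option autoImplicit false
set_option linter.unusedSectionVars false

/-!
# Project SI, section 6: no kernel vectors near the corner (1,1)

Statements with complete proofs in the docstrings.  In the docstrings: π_t i is m.piT D t i, F(i',i) is
m.Fc t i' i (column i', row i), ‖u‖^2 is nsq u.
-/

namespace Pool.Agent.Helper80.SI

open Pool.Agent.Helper99.SI Filter Topology

/-- Rotation invariant functions on words. -/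
def RotInv {n : ℕ} (u : W n →₀ ℂ) : Prop := ∀ (c : W n) (i : ℕ), u (c.rotate i) = u c

/-- The square of the norm. -/
noncomputable def nsq {ι : Type} (u : ι →₀ ℂ) : ℝ := u.sum fun _ r => ‖r‖ ^ 2

theorem fin_ilen {n r : ℕ} (K : ℕ) : {i : Idx n r | ilen i ≤ K}.Finite := by
  have h1 : {ν : W n | ν.length ≤ K}.Finite := List.finite_length_le (Fin n) K
  have h2 : {i : Idx n r | ilen i ≤ K} ⊆
      (fun ν : W n => (Sum.inl (Sum.inl ν) : Idx n r)) '' {ν : W n | ν.length ≤ K} ∪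
      (fun ν : W n => (Sum.inl (Sum.inr ν) : Idx n r)) '' {ν : W n | ν.length ≤ K} ∪
      Set.range (fun a : Fin r => (Sum.inr a : Idx n r)) := by
    rintro ((ν | ν) | a) hi
    · exact Or.inl (Or.inl ⟨ν, hi, rfl⟩)
    · exact Or.inl (Or.inr ⟨ν, hi, rfl⟩)
    · exact Or.inr ⟨a, rfl⟩
  exact (((h1.image _).union (h1.image _)).union (Set.finite_range _)).subset h2

section

variable {n : ℕ} {L : Type} [Ring L] [Algebra ℂ L] [StarRing L]

/-- H_t = ∑ β_t(x_i) x_i^*. -/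
noncomputable def Ht (D : Sys n L) (t : ℂ) : L := ∑ i, D.b.ev t (D.x i) * star (D.x i)

/-- H = ∑ D(x_i) x_i^*. -/
noncomputable def HH (D : Sys n L) : L := ∑ i, D.b.dd (D.x i) * star (D.x i)

/-- The gauge component of degree l of the formal sum of the z i • π_1 i. -/
noncomputable def comp (D : Sys n L) (m : MData n L) (z : Idx n m.r → ℂ) (l : ℤ) : L :=
  ∑ᶠ i : Idx n m.r, z i • D.g.p l (m.piT D 1 i)

/-- The coefficients of the component of degree g ≥ 1. -/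
noncomputable def mgf (D : Sys n L) (m : MData n L) (z : Idx n m.r → ℂ) (g : ℕ) : W n →₀ ℂ :=
  if g = 0 then 0 else D.cf (comp D m z g)

/-- C^flat on all vectors (the sums are finite). -/
noncomputable def Cinf (m : MData n L) (t : ℝ) (z : Idx n m.r → ℂ) (i : Idx n m.r) : ℂ :=
  ∑ᶠ i' : Idx n m.r, star (z i') * m.Cc t i' i

/-- A sequence of kernel vectors zz k at parameters (s k, t k) → (1,1) with the limit z and the
limit direction (σ, τ). -/
structure Lim (m : MData n L) (s t : ℕ → ℝ) (zz : ℕ → Idx n m.r → ℂ) (z : Idx n m.r → ℂ)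
    (σ τ : ℝ) : Prop where
  s0 : ∀ k, 0 < s k
  s1 : ∀ k, s k ≤ 1
  t0 : ∀ k, 0 < t k
  t1 : ∀ k, t k ≤ 1
  ne : ∀ k, s k + t k < 2
  sl : Tendsto s atTop (𝓝 1)
  tl : Tendsto t atTop (𝓝 1)
  ker : ∀ k, m.IsKer (s k) (t k) (zz k)
  lim : ∀ i, Tendsto (fun k => zz k i) atTop (𝓝 (z i))
  sum : Summable fun i => ‖z i‖ ^ 2
  σ0 : 0 ≤ σ
  τ0 : 0 ≤ τ
  στ : σ + τ = 1
  σl : Tendsto (fun k => (1 - s k) / (2 - s k - t k)) atTop (𝓝 σ)
  τl : Tendsto (fun k => (1 - t k) / (2 - s k - t k)) atTop (𝓝 τ)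

/-- Input from the operator part: kernel vectors near (1,1) are controlled by finitely many
coordinates. -/
def C1 (m : MData n L) : Prop :=
  ∃ (C ε : ℝ) (J : Finset (Idx n m.r)), 0 < ε ∧ ∀ s t : ℝ, 1 - ε < s → s ≤ 1 → 1 - ε < t → t ≤ 1 →
    (s, t) ≠ (1, 1) → ∀ z : Idx n m.r → ℂ, (Summable fun i => ‖z i‖ ^ 2) → m.IsKer s t z →
    ∑' i, ‖z i‖ ^ 2 ≤ C * ∑ i ∈ J, ‖z i‖ ^ 2

/-- No kernel vectors near the corner. -/
def NoKer (m : MData n L) : Prop :=
  ∃ ε : ℝ, 0 < ε ∧ ∀ s t : ℝ, 1 - ε < s → s ≤ 1 → 1 - ε < t → t ≤ 1 →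
    (s, t) ≠ (1, 1) → ∀ z : Idx n m.r → ℂ, (Summable fun i => ‖z i‖ ^ 2) → m.IsKer s t z → z = 0

end

/-- N1. Compactness.  PROOF. All |zz k i|^2 ≤ B, so zz k and a k stay in a compact subset of I → ℂ and of ℝ
(isCompact_univ_pi with closed balls, isCompact_Icc); I → ℂ is first countable (I countable), so IsCompact.tendsto_subseq
(for the product set in (I → ℂ) × ℝ) gives φ, z, σ.  For a finite set T: ∑_T |z i|^2 = lim ∑_T |zz (φ k) i|^2 ≤ B
(sum_le_tsum), so the sum is summable (summable_of_sum_le). -/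
def StN1 : Prop :=
  ∀ (I : Type) [Countable I] (zz : ℕ → I → ℂ) (a : ℕ → ℝ) (B : ℝ),
    (∀ k, Summable fun i => ‖zz k i‖ ^ 2) → (∀ k, ∑' i, ‖zz k i‖ ^ 2 ≤ B) →
    (∀ k, 0 ≤ a k ∧ a k ≤ 1) →
    ∃ (φ : ℕ → ℕ) (z : I → ℂ) (σ : ℝ), StrictMono φ ∧
      (∀ i, Tendsto (fun k => zz (φ k) i) atTop (𝓝 (z i))) ∧
      Tendsto (fun k => a (φ k)) atTop (𝓝 σ) ∧ Summable fun i => ‖z i‖ ^ 2

/-- N2. The limit.  PROOF. Let C, ε, J be as in C1, ε_k = min ε (1/2) / (k + 1).  By ¬ NoKer m choose for each k parameters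
s_k, t_k in (1 - ε_k, 1], (s_k,t_k) ≠ (1,1), and a summable kernel vector z_k ≠ 0.  By C1 q_k = ∑_J |z_k i|^2 > 0 (otherwise
∑' = 0 and z_k = 0).  Replace z_k by z_k / √q_k (IsKer is homogeneous: multiply the finsum by a constant, mul_finsum or
smul_finsum; the supports are finite by the field band and fin_ilen).  Now ∑_J |z_k i|^2 = 1, ∑' |z_k i|^2 ≤ C.  Apply N1 with
a k = (1 - s_k)/(2 - s_k - t_k) ∈ [0,1] (the denominator is > 0) and B = C; (1 - t_k)/(2 - s_k - t_k) = 1 - a k.  The limit z has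
∑_J |z i|^2 = 1, so z ≠ 0.  Take the subsequence of everything. -/
def StN2 : Prop :=
  ∀ (n : ℕ) (L : Type) [Ring L] [Algebra ℂ L] [StarRing L] [StarModule ℂ L] [Nontrivial L]
    (D : Sys n L) (X0 : Set L) (m : MData n L), IsModel D X0 m → C1 m → ¬ NoKer m →
    ∃ (s t : ℕ → ℝ) (zz : ℕ → Idx n m.r → ℂ) (z : Idx n m.r → ℂ) (σ τ : ℝ),
      Lim m s t zz z σ τ ∧ z ≠ 0

/-- N3. The limit is a kernel vector.  PROOF. Fix i.  By the field band F j i' i ≠ 0 only if ilen i' ≤ ilen i + c, a finite set T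
(fin_ilen), so all the finsums over i' are sums over T (finsum_eq_sum_of_support_subset).  Pass to the limit in
zz k i = s_k ∑_{i' ∈ T} Fc t_k i' i * zz k i'; Fc t_k i' i = ∑_{j ∈ Z} t_k^j F j i' i → Fc 1 i' i (t ↦ t^j is continuous at 1).
Uniqueness of limits. -/
def StN3 : Prop :=
  ∀ (n : ℕ) (L : Type) [Ring L] [Algebra ℂ L] [StarRing L] [StarModule ℂ L] [Nontrivial L]
    (D : Sys n L) (X0 : Set L) (m : MData n L) (s t : ℕ → ℝ) (zz : ℕ → Idx n m.r → ℂ)
    (z : Idx n m.r → ℂ) (σ τ : ℝ), IsModel D X0 m → Lim m s t zz z σ τ → m.IsKer 1 1 z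

/-- N4. Cinf preserves kernel vectors.  PROOF. Fix t > 0, C(i,i') = Cc t i' i, F(i,i') = Fc t i' i (row i, column i').  For fixed i
only finitely many i' have C(i,i') ≠ 0 (i' is the partner of i, that is the same word in the other copy, or i' = inr a), and for
fixed i only finitely many i' have F(i,i') ≠ 0 (band, fin_ilen); columns are finitely supported by definition.  Ccomm applied to
z = single i'' 1: ∑_{i'} star (F(i',i'')) C(i,i') = ∑_{i'} F(i,i') C(i',i'').  So (Cinf z) i = ∑_{i'} star (z i') C(i,i') =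
∑_{i'} C(i,i') star (s ∑_{i''} F(i',i'') z i'') = s ∑_{i''} star (z i'') ∑_{i'} star (F(i',i'')) C(i,i') =
s ∑_{i''} star (z i'') ∑_{i'} F(i,i') C(i',i'') = s ∑_{i'} F(i,i') (Cinf z) i'.  For fixed i all sums run over finite sets: i' with C(i,i') ≠ 0
and then i'' with F(i',i'') ≠ 0 for one of them; i' with F(i,i') ≠ 0, i'' with C(i',i'') ≠ 0 (write all of them as sums over one
large finite set {ilen ≤ K}: C(i,i') ≠ 0 implies ilen i' ≤ ilen i, as the length of inr a is 0). -/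
def StN4 : Prop :=
  ∀ (n : ℕ) (L : Type) [Ring L] [Algebra ℂ L] [StarRing L] [StarModule ℂ L] [Nontrivial L]
    (D : Sys n L) (X0 : Set L) (m : MData n L) (s t : ℝ) (z : Idx n m.r → ℂ),
    IsModel D X0 m → 0 < t → m.IsKer s t z → m.IsKer s t (Cinf m t z)

/-- N5. Symmetry of the limit.  PROOF. Kernel vectors: N4.  Coordinates: (Cinf t z) i = ∑ over the finite set of i' (the partner of i if i is
a word, and all inr a) of star (z i') * Cc t i' i; for zz k and t_k → 1 this tends to the value for z, 1 (Cc t i' i is a Laurent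
polynomial in t).  Summability of Cinf 1 z: for a word index i with ilen i ≥ M2 all Cc t (inr a) i = 0 (Csupp), so Cinf 1 z i =
star (z i*) with i* the partner; finitely many other indices (fin_ilen); the sum over the partners is summable (injective
reindexing, Summable.comp_injective, and summable_of_finite_support for the difference, or
summable_of_ne_finset_zero / Summable.of_norm_bounded_eventually). -/
def StN5 : Prop :=
  ∀ (n : ℕ) (L : Type) [Ring L] [Algebra ℂ L] [StarRing L] [StarModule ℂ L] [Nontrivial L]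
    (D : Sys n L) (X0 : Set L) (m : MData n L) (s t : ℕ → ℝ) (zz : ℕ → Idx n m.r → ℂ)
    (z : Idx n m.r → ℂ) (σ τ : ℝ), IsModel D X0 m → Lim m s t zz z σ τ →
    Lim m s t (fun k => Cinf m (t k) (zz k)) (Cinf m 1 z) σ τ

/-- N6. Components of the symmetric vector.  PROOF. By A0 ev 1 = id, so by Cpi: π_1(C^flat e_i) = star (π_1 i).  For fixed l only finitely
many i have g.p l (π_1 i) ≠ 0 (A2: word indices have gauge degree ± the length), same for -l.  comp (Cinf z) l =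
∑_i ∑_{i'} star (z i') C(i,i') g.p l (π_1 i) = ∑_{i'} star (z i') g.p l (π_1 (C^flat e_i')) = ∑_{i'} star (z i') g.p l (star (π_1 i')) =
∑_{i'} star (z i') star (g.p (-l) (π_1 i')) = star (comp z (-l)).  (Choose one finite set {ilen ≤ K} for all sums; C(i,i') ≠ 0 implies
ilen i' ≤ ilen i, and for given i' the support of the column C(.,i') is finite.) -/
def StN6 : Prop :=
  ∀ (n : ℕ) (L : Type) [Ring L] [Algebra ℂ L] [StarRing L] [StarModule ℂ L] [Nontrivial L]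
    (D : Sys n L) (X0 : Set L) (m : MData n L) (z : Idx n m.r → ℂ) (l : ℤ),
    IsModel D X0 m → comp D m (Cinf m 1 z) l = star (comp D m z (-l))

/-- N7. The components are fixed.  PROOF. Φ := D.Phi 1 is y ↦ ∑ star (x i) * y * x i (ev 1 = id, A0) and commutes with g.p l (A0 for the grading g,
fields gx, st: g.p l (star (x i) * y * x i) = star (x i) * g.p l y * x i).  For fixed l the set T of i with g.p l (π_1 i) ≠ 0 is finite (A2).
comp z l = ∑_{i ∈ T} z i g.p l (π_1 i) = ∑_{i ∈ T} ∑_{i'} Fc 1 i' i z i' g.p l (π_1 i) = ∑_{i'} z i' g.p l (π_1 (F e_i')) (i' in the finite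
set of ilen ≤ max ilen T + band) = ∑_{i'} z i' g.p l (Φ (π_1 i')) (field fpi, t = 1, z = single i' 1) = ∑ z i' Φ (g.p l (π_1 i')) =
Φ (comp z l); in the last sums only i' ∈ T contribute. -/
def StN7 : Prop :=
  ∀ (n : ℕ) (L : Type) [Ring L] [Algebra ℂ L] [StarRing L] [StarModule ℂ L] [Nontrivial L]
    (D : Sys n L) (X0 : Set L) (m : MData n L) (z : Idx n m.r → ℂ) (l : ℤ),
    IsModel D X0 m → m.IsKer 1 1 z →
    D.Phi 1 (comp D m z l) = comp D m z l ∧ D.g.p l (comp D m z l) = comp D m z l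

/-- N8. Homogeneous fixed elements.  PROOF. Φ = D.Phi 1, Φ^k y = ∑_{|κ| = k} star (w κ) * y * w κ (A8, ev 1 = id).  By A4 y * w κ ∈ S for
|κ| = k ≥ l0, and it is homogeneous of gauge degree l + k, so it is a combination of words of length l + k (A5).
Case l > 0: star (w κ) * w μ with |μ| = |κ| + l is a word of length l or 0 (A1), so y = Φ^k y ∈ S, supported on length l
(A5).  Φ (w μ) = w (μ.rotate 1) for μ ≠ [] (star (x i) * w μ * x i, A1).  So ∑ c_μ w_μ = ∑ c_μ w_{μ.rotate 1}, c = cf y, and by independence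
(A3) c (μ.rotate 1) = c μ, hence RotInv (c vanishes on [] and rotate i is an iterate).  Case l = 0: star (w κ) * w μ = δ (A1), so
y = Φ^k y = a • 1, and Φ 1 = n • 1, so a = n a, a = 0.  Case l < 0: star y is homogeneous of degree -l > 0 and Φ (star y) = star (Φ y). -/
def StN8 : Prop :=
  ∀ (n : ℕ) (L : Type) [Ring L] [Algebra ℂ L] [StarRing L] [StarModule ℂ L] [Nontrivial L]
    (D : Sys n L) (y : L) (l : ℤ), D.g.p l y = y → D.Phi 1 y = y →
    (l = 0 → 2 ≤ n → y = 0) ∧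
    (0 < l → y ∈ D.S ∧ RotInv (D.cf y) ∧ ∀ ν, D.cf y ν ≠ 0 → (ν.length : ℤ) = l) ∧
    (l < 0 → star y ∈ D.S ∧ RotInv (D.cf (star y)) ∧
      ∀ ν, D.cf (star y) ν ≠ 0 → (ν.length : ℤ) = -l)

/-- N9. The functional at H.  PROOF. (1) For a word μ = i :: μ' put f(μ) = τ_c(w μ' * dd (x i)), f([]) = 0.  dd is a derivation (A0), so by induction on
the word (for all words ρ): τ_c(dd (w μ) * w ρ) = ∑_{r < |μ|} f((μ ++ ρ).rotate r), using τ_c(a b) = τ_c(b a) (K3): the term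
w(μ.take r) * dd (x (μ_r)) * w(μ.drop (r+1) ++ ρ) has the trace of w(μ.drop (r+1) ++ ρ ++ μ.take r) * dd (x (μ_r)).  So
τ_c(dd (w μ)) = ∑_{r < l} f(μ.rotate r), |μ| = l, and τ_c(dd (emb u)) = ∑_r ∑_μ u(μ) f(μ.rotate r) = l ∑_ν u(ν) f(ν) (u rotation
invariant, μ ↦ μ.rotate r is a bijection of the words of length l).  On the other hand τ_c(w μ * HH) = ∑_i τ_c(star (x i) * w μ * dd (x i)) =
f(μ) (K3, A1).  (2) f'(i :: μ') = τ_c(star (w μ') * dd (star (x i))).  From 1 = ∑ x_i star(x_i), dd 1 = 0: HH = - ∑ x_i * dd (star (x_i)), so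
τ_c(star (w μ) * HH) = - f'(μ) (star (w (j :: μ')) * x_i = δ_ij star (w μ')).  As in (1) τ_c(dd (star (w μ))) = ∑_r f'(μ.rotate r)
(star (w μ) = star (w μ') * star (x i) for μ = i :: μ').  So l * τ_c(star (emb u) * HH) = - τ_c(dd (star (emb u))) = 0, since
τ_c(dd (star (w μ))) = ∑_j j τ_c(b.p j (star (w μ))) = 0 by K7 (K2 linearity). -/
def StN9 : Prop :=
  ∀ (n : ℕ) (L : Type) [Ring L] [Algebra ℂ L] [StarRing L] [StarModule ℂ L] [Nontrivial L]
    (D : Sys n L) (u : W n →₀ ℂ) (l : ℕ) (c : W n), c ≠ [] → 1 ≤ l → RotInv u →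
    (∀ ν, u ν ≠ 0 → ν.length = l) →
    (l : ℂ) * D.tau c (D.emb u * HH D) = D.tau c (D.b.dd (D.emb u)) ∧
    D.tau c (star (D.emb u) * HH D) = 0

/-- N10. Finite supports.  PROOF. τ_c(u) = τ_c(g.p |c| u) (K3).  Let the gauge degrees of y lie in [-e, e] (field fin of g).  Ghost index
inl (inr ν): π = 0 or star (w ν), gauge degree -|ν| (A2), so the product with y has only gauge degrees ≤ e - |ν| < |c| if |ν| > e
(product rule A0 for the grading g).  Word index inl (inl ν): π = 0 or ev t (w ν) = ∑ t^j (w ν)_(j) and by G2 (with |c| + e + 1) there is k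
with: |ν| ≥ k implies that all (w ν)_(j) have only gauge degrees ≥ |c| + e + 1; the product has only gauge degrees > |c|.  inr a has
ilen 0.  K = max e k. -/
def StN10 : Prop :=
  ∀ (n : ℕ) (L : Type) [Ring L] [Algebra ℂ L] [StarRing L] [StarModule ℂ L] [Nontrivial L]
    (D : Sys n L) (m : MData n L) (c : W n) (y : L), c ≠ [] →
    ∃ K : ℕ, ∀ t : ℝ, ∀ i : Idx n m.r, K < ilen i → D.tau c (m.piT D t i * y) = 0

/-- N11. The functional on kernel vectors.  PROOF. By N10 (for y = 1 and y = Ht) there is K such that τ_c(π_t i) = 0 = τ_c(π_t i * Ht) for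
ilen i > K.  Let T = {ilen ≤ K}, T' = {ilen ≤ K + band} (fin_ilen).  ∑_{i ∈ T} z i τ_c(π_t i) = ∑_{i ∈ T} s ∑_{i'} Fc t i' i z i' τ_c(π_t i) =
s ∑_{i' ∈ T'} z i' ∑_{i ∈ T} Fc t i' i τ_c(π_t i), and ∑_{i ∈ T} Fc t i' i τ_c(π_t i) = τ_c(piV (Fc t i')) (K2 linearity; the other terms of the
support vanish) = τ_c(Φ_t(π_t i')) (fpi with single i' 1) = ∑_j τ_c(star (x j) * π_t i' * ev t (x j)) = τ_c(π_t i' * Ht) (A8, K3).  So the sum of
z i τ_c(π_t i * (1 - s Ht)) is 0. -/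
def StN11 : Prop :=
  ∀ (n : ℕ) (L : Type) [Ring L] [Algebra ℂ L] [StarRing L] [StarModule ℂ L] [Nontrivial L]
    (D : Sys n L) (X0 : Set L) (m : MData n L) (s t : ℝ) (z : Idx n m.r → ℂ) (c : W n),
    IsModel D X0 m → 0 < t → m.IsKer s t z → c ≠ [] →
    ∑ᶠ i : Idx n m.r, z i * D.tau c (m.piT D t i * (1 - (s : ℂ) • Ht D (t : ℂ))) = 0

/-- N12. The limit identity.  PROOF. H_j := ∑_i b.p j (x i) * star (x i), j ∈ Z (field zx: the other ones vanish), Ht t = ∑_j t^j H_j, ∑_j H_j = 1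
(field comp of D, sum of b), ∑_j j H_j = HH.  N10 for y = 1, H_j (j ∈ Z) and HH gives one K; T = {ilen ≤ K}.  1 - s Ht(t) = (1 - s) 1 +
s ∑_j (1 - t^j) H_j.  Divide N11 for (s_k, t_k, zz k) by δ_k = 2 - s_k - t_k > 0: ∑_{i ∈ T} zz k i [ (1-s_k)/δ_k τ_c(π_{t_k} i) +
s_k ∑_j (1 - t_k^j)/δ_k τ_c(π_{t_k} i * H_j) ] = 0.  Limits: zz k i → z i, (1-s_k)/δ_k → σ, (1 - t_k^j)/δ_k → j τ: 1 - t^j = (1 - t) q_j(t) with
q_j continuous at 1, q_j(1) = j (geometric sum for j ≥ 0; for j = -a: -t^(-a) (1 - t^a)).  τ_c(π_{t_k} i * y) → τ_c(π_1 i * y): π_t i is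
∑_j t^j • (fixed elements) (finite sum), or constant. -/
def StN12 : Prop :=
  ∀ (n : ℕ) (L : Type) [Ring L] [Algebra ℂ L] [StarRing L] [StarModule ℂ L] [Nontrivial L]
    (D : Sys n L) (X0 : Set L) (m : MData n L) (s t : ℕ → ℝ) (zz : ℕ → Idx n m.r → ℂ)
    (z : Idx n m.r → ℂ) (σ τ : ℝ) (c : W n), IsModel D X0 m → Lim m s t zz z σ τ → c ≠ [] →
    (σ : ℂ) * (∑ᶠ i : Idx n m.r, z i * D.tau c (m.piT D 1 i)) +
      (τ : ℂ) * (∑ᶠ i : Idx n m.r, z i * D.tau c (m.piT D 1 i * HH D)) = 0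

/-- N13. The two sums in terms of the components.  PROOF. First: τ_c(u) = τ_c(g.p |c| u) (K3), so the sum is τ_c(comp z |c|) (finite sums), and
mgf |c| = cf (comp z |c|) with comp z |c| ∈ S (N7, N8, |c| ≥ 1), so emb (mgf |c|) = comp z |c| (A3).  Second: by N10 the sum runs over
i ∈ T = {ilen ≤ K} for K large; π_1 i = ∑_l g.p l (π_1 i), and τ_c(g.p l (π_1 i) * HH) = 0 unless |c| - b ≤ l ≤ |c| + b (N15).  So the sum is
∑_{l = |c|-b}^{|c|+b} τ_c(comp z l * HH) (K so large that T contains all i with g.p l (π_1 i) ≠ 0 for one of these l, A2).  l = 0: comp z 0 = 0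
(N7, N8, 2 ≤ n).  l < 0: comp z l = star (emb u), u = cf (star (comp z l)) rotation invariant, supported on length -l (N8, A3), so
the term is 0 (N9).  l > 0: comp z l = emb (mgf l).  The right finsum: its terms vanish for g = 0 (mgf 0 = 0) and for g outside
[|c| - b, |c| + b] (N15, emb (mgf g) = comp z g is homogeneous). -/
def StN13 : Prop :=
  ∀ (n : ℕ) (L : Type) [Ring L] [Algebra ℂ L] [StarRing L] [StarModule ℂ L] [Nontrivial L]
    (D : Sys n L) (X0 : Set L) (m : MData n L) (z : Idx n m.r → ℂ) (c : W n),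
    IsModel D X0 m → 2 ≤ n → m.IsKer 1 1 z → c ≠ [] →
    ∑ᶠ i : Idx n m.r, z i * D.tau c (m.piT D 1 i) = D.tau c (D.emb (mgf D m z c.length)) ∧
    ∑ᶠ i : Idx n m.r, z i * D.tau c (m.piT D 1 i * HH D) =
      ∑ᶠ g : ℕ, D.tau c (D.emb (mgf D m z g) * HH D)

/-- N14. A bilinear bound.  PROOF. HH = ∑_{(α,β) ∈ finite set} h_αβ w α * star (w β) (field span).  Let K = max |β|, C = ∑ |h_αβ|.  τ_c(emb u * w α *
star (w β)) = τ_c(star (w β) * emb u * w α) (K3), and star (w β) * w μ = w ν if μ = β ν, 0 otherwise for |μ| = g ≥ K ≥ |β| (A1), so star (w β) * emb u *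
w α = emb u' with u' (ν ++ α) = u (β ++ ν) and 0 elsewhere (finitely supported), ‖u'‖^2 ≤ ‖u‖^2.  ∑_c star (v c) τ_c(emb u') = hf u' v
(definition of hf, K2 linearity; v [] = 0 as g' ≥ 1).  If u' [] ≠ 0 replace u' by u' - u' [] single [] (τ_c(w []) = 0 for c ≠ [], K2: rotc [] c = 0)
so u' [] = 0.  By K15 (v rotation invariant) hf u' v = ∑_a |a| u' a star (v a), and only |a| = g' contributes, so |hf u' v| ≤
g' ∑ |u' a| |v a| ≤ g' (‖u'‖^2 + ‖v‖^2).  Sum over (α,β). -/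
def StN14 : Prop :=
  ∀ (n : ℕ) (L : Type) [Ring L] [Algebra ℂ L] [StarRing L] [StarModule ℂ L] [Nontrivial L]
    (D : Sys n L), ∃ (C : ℝ) (K : ℕ), 0 ≤ C ∧ ∀ (g g' : ℕ) (u v : W n →₀ ℂ), K ≤ g → 1 ≤ g' → RotInv v →
    (∀ ν, u ν ≠ 0 → ν.length = g) → (∀ ν, v ν ≠ 0 → ν.length = g') →
    ‖v.sum fun c s => star s * D.tau c (D.emb u * HH D)‖ ≤ C * g' * (nsq u + nsq v)

/-- N15. Band.  PROOF. Let the gauge degrees of HH lie in [-b, b] (field fin of g).  τ_c(y * HH) = τ_c(g.p |c| (y * HH)) (K3) and g.p |c| (y * HH) =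
y * g.p (|c| - l) (HH) (A0 for g, y homogeneous of degree l) = 0 if | |c| - l | > b; τ_c 0 = 0. -/
def StN15 : Prop :=
  ∀ (n : ℕ) (L : Type) [Ring L] [Algebra ℂ L] [StarRing L] [StarModule ℂ L] [Nontrivial L]
    (D : Sys n L), ∃ b : ℕ, ∀ (c : W n) (l : ℤ) (y : L), c ≠ [] → D.g.p l y = y →
      ((c.length : ℤ) + b < l ∨ l + b < c.length) → D.tau c (y * HH D) = 0

/-- N16. The main inequality.  PROOF. Notation: a_g = ‖mg g‖^2, u_g = (1/g) mg g, U = ∑_{g=1}^N u_g, b from N15, C, K from N14, N0 = K + b.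
emb (mg g) is homogeneous of gauge degree g (A2).  Multiply the identity for c by star (U c) and sum over c in the support of U (U [] = 0, all
c have length in [1,N]).
(i) ∑_c star (U c) τ_c(emb (mg |c|)) = ∑_{g ≤ N} (1/g) hf (mg g) (mg g) (hf (mg g) (mg g) = ∑_c star (mg g c) τ_c(emb (mg g)), K2 linearity) = ∑_{g ≤ N} a_g
(K15: hf u u = ∑ |a| |u a|^2 = g a_g).
(ii) ∑_c star (U c) ∑_g τ_c(emb (mg g) * HH): by N15 only g ≤ |c| + b ≤ N + b contribute.  The part g ≤ N: by N9 τ_c(emb (mg g) * HH) =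
(1/g) τ_c(dd (emb (mg g))) = τ_c(dd (emb u_g)), the sum is df U U.  The part N < g ≤ N + b: E = ∑_{g} ∑_{g' ≤ N} (1/g') ∑_c star (mg g' c) τ_c(emb (mg g) *
HH); by N15 only g' ≥ g - b > N - b; by N14 (g > N ≥ K) the inner sum is ≤ C g' (a_g + a_g').  So |E| ≤ C ∑_{g=N+1}^{N+b} ∑_{g'=N-b+1}^{N} (a_g + a_g')
≤ 2 C b ∑_{g=N-b}^{N+b} a_g.
(iii) σ ∑_{g≤N} a_g + τ df U U + τ E = 0.  Real parts: re df U U ≥ re hf U U (K16) = ∑_{g≤N} a_g / g (K15: U rotation invariant, U [] = 0, hf U U =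
∑_a |a| |U a|^2 = ∑_g g a_g / g^2).  Also ∑ a_g ≥ ∑ a_g / g.  So ∑_{g≤N} a_g / g = (σ + τ) ∑ a_g/g ≤ σ ∑ a_g + τ re df U U = - τ re E ≤ |E|. -/
def StN16 : Prop :=
  ∀ (n : ℕ) (L : Type) [Ring L] [Algebra ℂ L] [StarRing L] [StarModule ℂ L] [Nontrivial L]
    (D : Sys n L) (mg : ℕ → (W n →₀ ℂ)) (σ τ : ℝ), 0 ≤ σ → 0 ≤ τ → σ + τ = 1 →
    (∀ g, RotInv (mg g)) → (∀ g ν, mg g ν ≠ 0 → ν.length = g) → mg 0 = 0 →
    (∀ c : W n, c ≠ [] → (σ : ℂ) * D.tau c (D.emb (mg c.length)) +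
      (τ : ℂ) * ∑ᶠ g : ℕ, D.tau c (D.emb (mg g) * HH D) = 0) →
    ∃ (C : ℝ) (b N0 : ℕ), ∀ N ≥ N0, ∑ g ∈ Finset.Icc 1 N, nsq (mg g) / (g : ℝ) ≤
      C * ∑ g ∈ Finset.Icc (N - b) (N + b), nsq (mg g)

/-- N17. Real analysis.  PROOF. The sums over Icc (N - b) (N + b) tend to 0 as N → ∞ (they are at most ∑_{g ≥ N - b} a g, a tail of a
convergent series; C ≥ 0 may be assumed, replace C by |C|).  For fixed g0 ≥ 1 and N ≥ g0: a g0 / g0 ≤ the left side, so a g0 / g0 ≤ 0. -/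
def StN17 : Prop :=
  ∀ (a : ℕ → ℝ) (C : ℝ) (b N0 : ℕ), (∀ g, 0 ≤ a g) → Summable a →
    (∀ N ≥ N0, ∑ g ∈ Finset.Icc 1 N, a g / (g : ℝ) ≤ C * ∑ g ∈ Finset.Icc (N - b) (N + b), a g) →
    ∀ g ≥ 1, a g = 0

/-- N18. Vanishing.  PROOF. Dummies (word indices of length < M) have z i = 0: IsKer and the field dum2 (all F j i' i = 0).  Choose K ≥ M larger than the
absolute values of all gauge degrees of the finitely many elements π_1 (inr a).  For |ν| = l > K: comp z l = ∑_{|μ| = l} z (inl (inl μ)) • w μ (A2, ev 1 =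
id), so all these z vanish (A3 independence); comp z (-l) = ∑_{|μ|=l} z (inl (inr μ)) • star (w μ) = 0, so they vanish too (apply star).  So z is
finitely supported, z = ⇑zf, π_1 zf = ∑_l g.p l (π_1 zf) = ∑_l comp z l = 0 (field sum of g).  Field nil (t = 1): Fl^k zf = 0.  IsKer 1 1 z means
Fl 1 zf = zf, so zf = Fl^k zf = 0. -/
def StN18 : Prop :=
  ∀ (n : ℕ) (L : Type) [Ring L] [Algebra ℂ L] [StarRing L] [StarModule ℂ L] [Nontrivial L]
    (D : Sys n L) (X0 : Set L) (m : MData n L) (z : Idx n m.r → ℂ),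
    IsModel D X0 m → m.IsKer 1 1 z → (∀ l : ℤ, comp D m z l = 0) → z = 0

/-- N19. Summability.  PROOF. Choose K ≥ M larger than all gauge degrees of the finitely many elements π_1 (inr a).  For g > K: comp z g = ∑_{|ν| = g} z (inl
(inl ν)) • w ν = emb (∑_{|ν|=g} single ν (z (inl (inl ν)))) (A0, A2), so mgf g = that finitely supported function (A3) and nsq (mgf g) = ∑_{|ν| = g} |z (inl
(inl ν))|^2.  So every finite sum of nsq (mgf g) over g > K is ≤ ∑' |z i|^2 (disjoint finite sets of indices); summable_of_sum_le and finitely many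
other terms. -/
def StN19 : Prop :=
  ∀ (n : ℕ) (L : Type) [Ring L] [Algebra ℂ L] [StarRing L] [StarModule ℂ L] [Nontrivial L]
    (D : Sys n L) (X0 : Set L) (m : MData n L) (z : Idx n m.r → ℂ),
    IsModel D X0 m → (Summable fun i => ‖z i‖ ^ 2) → Summable fun g : ℕ => nsq (mgf D m z g)

/-- The result of section 6. -/
def StNEAR : Prop :=
  ∀ (n : ℕ) (L : Type) [Ring L] [Algebra ℂ L] [StarRing L] [StarModule ℂ L] [Nontrivial L]
    (D : Sys n L) (X0 : Set L) (m : MData n L), IsModel D X0 m → 2 ≤ n → C1 m → NoKer m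

end Pool.Agent.Helper80.SI
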